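import Mathlib

set_option autoImplicit false

namespace Pool.Agent.Results.MP_4d6431_an.Yes

open Filter Topology Set
open scoped ENNReal

/-- complete p-norm -/
def PB (p : ℝ) {Z : Type} [AddCommGroup Z] [Module ℝ Z] (ν : Z → ℝ) : Prop :=
  (∀ x, 0 ≤ ν x) ∧ (∀ x, x ≠ 0 → 0 < ν x) ∧ (∀ (a : ℝ) x, ν (a • x) = |a| * ν x) ∧
  (∀ x y, ν (x + y) ^ p ≤ ν x ^ p + ν y ^ p) ∧
  ∀ u : ℕ → Z, (∀ ε > 0, ∃ N, ∀ m ≥ N, ∀ n ≥ N, ν (u m - u n) ^ p < ε) →
    ∃ z, Tendsto (fun n => ν (u n - z) ^ p) atTop (𝓝 0)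

/-- Lipschitz constant -/
noncomputable def Lip {M Z : Type} [MetricSpace M] [AddCommGroup Z] (ν : Z → ℝ) (f : M → Z) : ℝ≥0∞ :=
  ⨆ (x : M) (y : M) (_ : x ≠ y), ENNReal.ofReal (ν (f x - f y) / dist x y)

/-- the p-trace -/
noncomputable def t (p : ℝ) {M : Type} [MetricSpace M] (N : Set M) : ℝ≥0∞ :=
  sInf {C | 0 < C ∧ ∀ (Z : Type) [AddCommGroup Z] [Module ℝ Z] (ν : Z → ℝ), PB p ν →
    ∀ f : N → Z, Lip ν f < ⊤ → ∃ F : M → Z, (∀ x : N, F x = f x) ∧ Lip ν F ≤ C * Lip ν f}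

/-- absolute extendability constants -/
noncomputable def ae (p : ℝ) (n : ℕ) : ℝ≥0∞ :=
  ⨆ (M : Type) (_ : MetricSpace M) (N : Set M) (_ : N.Nonempty ∧ N.encard ≤ n), t p N

/-- the quantity of the second question -/
noncomputable def S (n m : ℕ) : ℝ≥0∞ :=
  ⨆ (M : Type) (_ : MetricSpace M) (N : Set M) (_ : N.Nonempty ∧ N.encard ≤ n ∧ Nᶜ.encard ≤ m),
    liminf (fun p => t p N) (𝓝[>] 0)

theorem lip_le {M Z : Type} [MetricSpace M] [AddCommGroup Z] {ν : Z → ℝ} {f : M → Z} {L : ℝ}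
    (h : 0 ≤ L) : Lip ν f ≤ ENNReal.ofReal L ↔ ∀ x y, x ≠ y → ν (f x - f y) ≤ L * dist x y := by
  simp only [Lip, iSup_le_iff, ENNReal.ofReal_le_ofReal_iff h]
  exact forall₃_congr fun x y h => div_le_iff₀ (dist_pos.2 h)

theorem prim {M : Type} [MetricSpace M] [Finite M] (m : ℕ) : ∀ N : Set M, N.Nonempty →
    Nᶜ.ncard = m → ∃ r : M → M, (∀ x, r x ∈ N) ∧ (∀ x ∈ N, r x = x) ∧
      (∀ u v, dist (r u) (r v) ≤ (m + 1) * dist u v) ∧
      ∀ u v, r u ≠ r v → ¬ (u ∈ N ∧ v ∈ N) → ∃ z ∉ N, dist (r v) z ≤ dist u v := by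
  classical
  induction m with
  | zero =>
    intro N _ h
    obtain rfl : N = univ := compl_empty_iff.1 ((ncard_eq_zero (toFinite _)).1 h)
    exact ⟨id, by simp, by simp, by simp, by simp⟩
  | succ m ih =>
    intro N hN h
    obtain ⟨⟨b, x⟩, ⟨hb, hx⟩, mn⟩ := exists_min_image (N ×ˢ Nᶜ) (fun q => dist q.1 q.2) (toFinite _)
      (hN.prod (nonempty_of_ncard_ne_zero (by omega)))
    obtain ⟨r, r1, r2, r3, r4⟩ := ih (insert x N) (by simp) (by
      rw [show (insert x N)ᶜ = Nᶜ \ {x} by ext; simp [and_comm], ncard_sdiff_singleton_of_mem hx, h]; rfl)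
    have k : ∀ u v, r u ≠ x → r v = x → dist b x ≤ dist u v := fun u v hu hv => by
      by_cases c : v ∈ insert x N ∧ u ∈ insert x N
      · rw [r2 _ c.1] at hv
        rw [r2 _ c.2] at hu
        exact hv ▸ mn (u, x) ⟨c.2.resolve_left hu, hx⟩
      · obtain ⟨z, z1, z2⟩ := r4 v u (by rw [hv]; exact hu.symm) c
        exact (mn (r u, z) ⟨(r1 u).resolve_left hu, fun h => z1 (.inr h)⟩).trans (dist_comm u v ▸ z2)
    refine ⟨fun u => if r u = x then b else r u, fun u => ?_, fun u hu => ?_, fun u v => ?_,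
      fun u v h1 h2 => ?_⟩
    · beta_reduce
      split_ifs with c
      exacts [hb, (r1 u).resolve_left c]
    · have : u ≠ x := by rintro rfl; exact hx hu
      simp [r2 u (.inr hu), this]
    · have := r3 u v
      have := dist_nonneg (x := u) (y := v)
      push_cast
      split_ifs with c d d
      · simp; positivity
      · have := k v u d c
        have := dist_triangle b (r u) (r v)
        rw [dist_comm v, ← c] at *
        linarith
      · have := k u v c d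
        have := dist_triangle_right (r u) b (r v)
        rw [← d] at *
        linarith
      · linarith
    · beta_reduce at h1 ⊢
      by_cases d : r v = x
      · rw [if_pos d] at h1 ⊢
        exact ⟨x, hx, k u v (fun c => h1 (if_pos c)) d⟩
      rw [if_neg d] at h1 ⊢
      by_cases c : u ∈ insert x N ∧ v ∈ insert x N
      · rw [r2 _ c.2] at d ⊢
        exact ⟨u, fun h => h2 ⟨h, c.2.resolve_left d⟩, (dist_comm _ _).le⟩
      · obtain ⟨z, z1, z2⟩ := r4 u v (fun e => h1 (by rw [e, if_neg d])) c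
        exact ⟨z, fun h => z1 (.inr h), z2⟩

theorem up (p : ℝ) {M : Type} [MetricSpace M] (N : Set M) (n m : ℕ)
    (h : N.Nonempty ∧ N.encard ≤ n ∧ Nᶜ.encard ≤ m) : t p N ≤ m + 1 := by
  have f1 := finite_of_encard_le_coe h.2.1
  have f2 := finite_of_encard_le_coe h.2.2
  have : Finite M := finite_univ_iff.1 (union_compl_self N ▸ f1.union f2)
  obtain ⟨r, r1, r2, r3, -⟩ := prim _ N h.1 rfl
  have c : (Nᶜ.ncard : ℝ) ≤ m := by
    have := h.2.2
    rw [← f2.cast_ncard_eq] at this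
    exact_mod_cast this
  refine sInf_le ⟨by simp, fun Z _ _ ν hν f hf => ⟨fun x => f ⟨r x, r1 x⟩, fun x => by
    simp [r2 x x.2], ?_⟩⟩
  have a := (lip_le ENNReal.toReal_nonneg).1 (ENNReal.ofReal_toReal hf.ne).ge
  rw [← ENNReal.ofReal_toReal hf.ne, ← Nat.cast_add_one, ← ENNReal.ofReal_natCast,
    ← ENNReal.ofReal_mul (by positivity), lip_le (by positivity)]
  intro x y _
  by_cases e : r x = r y
  · have := hν.2.2.1 0 0
    simp only [e, sub_self, zero_smul, abs_zero, zero_mul] at this ⊢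
    rw [this]; positivity
  · refine (a _ _ (by simpa using e)).trans ?_
    rw [mul_comm (_ : ℝ) (Lip ν f).toReal, mul_assoc]
    gcongr
    exact (r3 x y).trans (by push_cast; gcongr)

/-- p-th power of the p-norm -/
noncomputable def g (p : ℝ) (v : ℝ × ℝ) : ℝ := ⨅ c : ℝ, |v.1 - c| ^ p + |v.2 - c| ^ p + |c| ^ p

theorem g_le (p : ℝ) (v : ℝ × ℝ) (c : ℝ) : g p v ≤ |v.1 - c| ^ p + |v.2 - c| ^ p + |c| ^ p :=
  ciInf_le ⟨0, by rintro _ ⟨c, rfl⟩; positivity⟩ c

theorem g0 (p : ℝ) (v : ℝ × ℝ) : 0 ≤ g p v := le_ciInf fun c => by positivity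

variable {p : ℝ} (p0 : 0 < p) (p1 : p ≤ 1)
include p0 p1

theorem sub (a b : ℝ) : |a + b| ^ p ≤ |a| ^ p + |b| ^ p :=
  (Real.rpow_le_rpow (abs_nonneg _) (abs_add_le a b) p0.le).trans
    (Real.rpow_add_le_add_rpow (abs_nonneg _) (abs_nonneg _) p0.le p1)

theorem le_g (v : ℝ × ℝ) : ‖v‖ ≤ g p v ^ p⁻¹ := by
  rw [Real.le_rpow_inv_iff_of_pos (norm_nonneg _) (g0 _ _) p0]
  refine le_ciInf fun c => ?_
  have a := sub p0 p1 (v.1 - c) c
  have b := sub p0 p1 (v.2 - c) c
  have : 0 ≤ |v.1 - c| ^ p := by positivity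
  have : 0 ≤ |v.2 - c| ^ p := by positivity
  rw [sub_add_cancel] at a b
  rw [Prod.norm_def, Real.norm_eq_abs, Real.norm_eq_abs]
  rcases max_choice |v.1| |v.2| with h | h <;> rw [h] <;> linarith

theorem pb : PB p fun v => g p v ^ p⁻¹ := by
  have e : ∀ v, (g p v ^ p⁻¹) ^ p = g p v := fun v => Real.rpow_inv_rpow (g0 _ _) p0.ne'
  refine ⟨fun v => Real.rpow_nonneg (g0 _ _) _, fun v h => (norm_pos_iff.2 h).trans_le (le_g p0 p1 v),
    fun a v => ?_, fun v w => ?_, fun u hu => ?_⟩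
  · have : g p (a • v) = |a| ^ p * g p v := by
      by_cases h : a = 0
      · simpa [h, p0.ne'] using le_antisymm (by simpa [p0.ne'] using g_le p 0 0) (g0 p 0)
      rw [g, g, Real.mul_iInf_of_nonneg (by positivity), ← (mul_left_surjective₀ h).iInf_comp]
      congr! 1 with c
      simp [← mul_sub, mul_add, Real.mul_rpow]
    beta_reduce
    rw [this, Real.mul_rpow (by positivity) (g0 _ _), Real.rpow_rpow_inv (abs_nonneg _) p0.ne']
  · simp only [e]
    refine le_ciInf_add_ciInf fun c d => (g_le p _ (c + d)).trans ?_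
    have a := sub p0 p1 (v.1 - c) (w.1 - d)
    have b := sub p0 p1 (v.2 - c) (w.2 - d)
    rw [← add_sub_add_comm] at a b
    have := sub p0 p1 c d
    simp only [Prod.fst_add, Prod.snd_add]
    linarith
  · obtain ⟨z, hz⟩ := cauchySeq_tendsto_of_complete (u := u) (Metric.cauchySeq_iff.2 fun ε h => by
      obtain ⟨N, hN⟩ := hu (ε ^ p) (by positivity)
      exact ⟨N, fun m a n b => (dist_eq_norm _ _).trans_lt ((le_g p0 p1 _).trans_lt
        (lt_of_not_ge fun c => (hN m a n b).not_ge (Real.rpow_le_rpow h.le c p0.le)))⟩)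
    simp only [e]
    refine ⟨z, squeeze_zero (fun _ => g0 _ _) (fun n => g_le p _ 0) ?_⟩
    have : Continuous fun v : ℝ × ℝ => |(v - z).1 - 0| ^ p + |(v - z).2 - 0| ^ p + |(0 : ℝ)| ^ p :=
      ((Continuous.rpow_const (by fun_prop) fun _ => .inr p0.le).add
        (Continuous.rpow_const (by fun_prop) fun _ => .inr p0.le)).add continuous_const
    simpa [p0.ne', Function.comp_def] using (this.tendsto z).comp hz

omit p1 in
theorem near (v : ℝ × ℝ) (η : ℝ) (h0 : 0 < η) (h : g p v < 2 * η ^ p) :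
    |v.1| < 2 * η ∨ |v.2| < 2 * η ∨ |v.1 - v.2| < 2 * η := by
  obtain ⟨c, hc⟩ := exists_lt_of_ciInf_lt h
  have k : ∀ a b d : ℝ, |a| ^ p + |b| ^ p + |d| ^ p < 2 * η ^ p → |a| < η ∨ |b| < η := fun a b d h => by
    by_contra! c
    have := Real.rpow_le_rpow h0.le c.1 p0.le
    have := Real.rpow_le_rpow h0.le c.2 p0.le
    have : 0 ≤ |d| ^ p := by positivity
    linarith
  have a := k _ _ _ hc
  have b := k (v.1 - c) c (v.2 - c) (by linarith)
  have d := k (v.2 - c) c (v.1 - c) (by linarith)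
  simp only [abs_lt] at *
  grind

omit p1 in
theorem ax (v : ℝ × ℝ) (d : ℝ) (h : v.1 = 0 ∨ v.2 = 0 ∨ v.1 = v.2) (h1 : |v.1| ≤ d) (h2 : |v.2| ≤ d) :
    g p v ≤ d ^ p := by
  have a := Real.rpow_le_rpow (abs_nonneg _) h1 p0.le
  have b := Real.rpow_le_rpow (abs_nonneg _) h2 p0.le
  rcases h with h | h | h
  · exact (g_le p v 0).trans (by simpa [h, p0.ne'] using b)
  · exact (g_le p v 0).trans (by simpa [h, p0.ne'] using a)
  · exact (g_le p v v.2).trans (by simpa [h, p0.ne'] using b)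

omit p0 p1

/-- the ambient space -/
abbrev MM (k : ℕ) := {x : ℕ // x = 0 ∨ (k ≤ x ∧ x ≤ 2 * k)}

/-- three points -/
def NN (k : ℕ) : Set (MM k) := {x | x.1 = 0 ∨ x.1 = k ∨ x.1 = 2 * k}

theorem low (k : ℕ) (L : ℝ) (L0 : 0 < L) (hL : L < k) :
    ∀ᶠ p in 𝓝[>] (0 : ℝ), ENNReal.ofReal L ≤ t p (NN k) := by
  set η := (k - L) / 8 with hη
  have η0 : 0 < η := by linarith
  have k0 : (0 : ℝ) < k := by linarith
  have := ((Real.continuousAt_const_rpow (a := L * (2 * k) / η) (b := 0) (by positivity)).eventually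
    (gt_mem_nhds (show _ < 2 by simp))).filter_mono (nhdsWithin_le_nhds (s := Ioi 0))
  filter_upwards [this, Ioc_mem_nhdsGT zero_lt_one] with p hp ⟨p0, p1⟩
  refine le_sInf fun C hC => le_of_not_gt fun c => ?_
  let P : MM k → ℝ × ℝ := fun x => (min x.1 k, max (x.1 - k) 0)
  have f1 : Lip (fun v => g p v ^ p⁻¹) (fun x : NN k => P x) ≤ ENNReal.ofReal 1 :=
    (lip_le zero_le_one).2 fun x y _ => by
      rw [Real.rpow_inv_le_iff_of_pos (g0 _ _) (by positivity) p0, one_mul, Subtype.dist_eq,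
        Subtype.dist_eq, ← Nat.dist_cast_real, Real.dist_eq]
      obtain ⟨⟨x, _⟩, hx⟩ := x
      obtain ⟨⟨y, _⟩, hy⟩ := y
      refine ax p0 _ _ ?_ ((abs_min_sub_min_le_max _ _ _ _).trans (by simp))
        ((abs_max_sub_max_le_abs _ _ _).trans (by simp))
      have : (2 * k - k : ℝ) = k := by ring
      have : (k : ℝ) ≤ 2 * k := by linarith
      rcases hx with (rfl : x = _) | (rfl : x = _) | (rfl : x = _) <;>
        rcases hy with (rfl : y = _) | (rfl : y = _) | (rfl : y = _) <;> simp [P, *]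
  obtain ⟨F, F1, F2⟩ := hC.2 _ _ (pb p0 p1) _ (f1.trans_lt (by simp))
  have F3 := (lip_le L0.le).1 (F2.trans ((mul_le_mul' c.le f1).trans_eq (by simp)))
  have F4 : ∀ x y, g p (F x - F y) < 2 * η ^ p := fun x y => by
    rw [Real.div_rpow (by positivity) η0.le, div_lt_iff₀ (by positivity)] at hp
    refine lt_of_le_of_lt ?_ hp
    by_cases e : x = y
    · exact ax p0 _ _ (by simp [e]) (by simp [e]; positivity) (by simp [e]; positivity)
    rw [← Real.rpow_inv_le_iff_of_pos (g0 _ _) (by positivity) p0]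
    refine (F3 x y e).trans (mul_le_mul_of_nonneg_left ?_ L0.le)
    have a : (x.1 : ℝ) ≤ (2 * k : ℕ) := by exact_mod_cast (by omega)
    have b : (y.1 : ℝ) ≤ (2 * k : ℕ) := by exact_mod_cast (by omega)
    rw [Subtype.dist_eq, ← Nat.dist_cast_real, Real.dist_eq, abs_le]
    push_cast at a b
    constructor <;> linarith [x.1.cast_nonneg (α := ℝ), y.1.cast_nonneg (α := ℝ)]
  have e0 : F ⟨0, by simp⟩ = (0, 0) := (F1 ⟨_, by simp [NN]⟩).trans (by simp [P])
  have e1 : F ⟨k, by omega⟩ = ((k : ℝ), 0) := (F1 ⟨_, by simp [NN]⟩).trans (by simp [P])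
  have e2 : F ⟨k + k, by omega⟩ = ((k : ℝ), (k : ℝ)) :=
    (F1 ⟨_, by simp [NN, two_mul]⟩).trans (by simp [P])
  have : ∀ j (h : j ≤ k), |(F ⟨k + j, by omega⟩).2| < 4 * η := fun j h => by
    induction j with
    | zero => simpa [e1] using η0
    | succ j ih =>
      have ih := ih (by omega)
      have a := (norm_snd_le _).trans ((le_g p0 p1 _).trans (F3 ⟨k + (j + 1), by omega⟩
        ⟨k + j, by omega⟩ (by simp)))
      rw [Subtype.dist_eq, ← Nat.dist_cast_real, Real.dist_eq] at a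
      have b0 := near p0 _ η η0 (F4 ⟨k + (j + 1), by omega⟩ ⟨0, by simp⟩)
      have b1 := near p0 _ η η0 (F4 ⟨k + (j + 1), by omega⟩ ⟨k, by omega⟩)
      have b2 := near p0 _ η η0 (F4 ⟨k + (j + 1), by omega⟩ ⟨k + k, by omega⟩)
      rw [e0] at b0
      rw [e1] at b1
      rw [e2] at b2
      generalize F ⟨k + (j + 1), _⟩ = v at *
      simp [abs_le, abs_lt] at a b0 b1 b2 ih ⊢
      grind
  have := this k le_rfl
  rw [e2, abs_lt] at this
  linarith

theorem result : (∀ n ≥ 3, Tendsto (fun p => ae p n) (𝓝[>] 0) (𝓝 ⊤)) ∧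
    ∀ n ≥ 3, ∀ m, S n m = m + 1 := by
  have c : ∀ n ≥ 3, ∀ m : ℕ, (NN (m + 1)).Nonempty ∧ (NN (m + 1)).encard ≤ (n : ℕ) ∧
      (NN (m + 1))ᶜ.encard ≤ m := fun n hn m => by
    refine ⟨⟨⟨0, by simp⟩, by simp [NN]⟩, ?_, ?_⟩ <;>
      rw [← Subtype.val_injective.encard_image]
    · refine (encard_le_encard (t := {0, m + 1, 2 * (m + 1)}) (by rintro _ ⟨x, h, rfl⟩; exact h)).trans
        (((encard_insert_le _ _).trans (add_le_add_left (encard_insert_le _ _) _)).trans ?_)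
      rw [encard_singleton]
      exact_mod_cast hn
    · refine (encard_le_encard (t := Finset.Ioo (m + 1) (2 * (m + 1))) ?_).trans ?_
      · rintro _ ⟨⟨x, h⟩, h', rfl⟩
        simp [NN] at h' ⊢
        omega
      · rw [encard_coe_eq_coe_finsetCard, Nat.card_Ioo]
        exact_mod_cast (by omega)
  refine ⟨fun n hn => ENNReal.tendsto_nhds_top_iff_nat.2 fun m => ?_, fun n hn m => le_antisymm
    (iSup₂_le fun M _ => iSup₂_le fun N h => liminf_le_of_frequently_le' (.of_forall fun p => up p N n m h))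
    (le_iSup₂_of_le (MM (m + 1)) inferInstance (le_iSup₂_of_le (NN _) (c n hn m) ?_))⟩
  · filter_upwards [low (m + 1 + 1) (m + 1) (by positivity) (by simp)] with p hp
    refine lt_of_lt_of_le ?_ (hp.trans (le_iSup₂_of_le (MM _) inferInstance
      (le_iSup₂_of_le (NN _) ⟨(c n hn _).1, (c n hn _).2.1⟩ le_rfl)))
    rw [← ENNReal.ofReal_natCast, ENNReal.ofReal_lt_ofReal_iff (by positivity)]
    simp
  · refine le_of_forall_lt_imp_le_of_dense fun r hr => ?_
    rcases eq_or_ne r 0 with rfl | r0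
    · simp
    lift r to NNReal using hr.ne_top
    rw [← ENNReal.ofReal_coe_nnreal]
    exact le_liminf_of_le (by isBoundedDefault) (low _ r (by exact_mod_cast pos_iff_ne_zero.2 r0)
      (by exact_mod_cast hr))

end Pool.Agent.Results.MP_4d6431_an.Yes
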